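import Pool.Agent.H86.IR.Targets1

/-!
# Compactness of the superlevel sets in the new variable (module MK of the board ir_modules)
-/

set_option autoImplicit false

open Complex Topology Filter InnerProductSpace
open scoped OnePoint

namespace Pool.Agent.H50.IR

open Pool.Agent.H86.IR

/-- a function which is harmonic at a point of the sphere is continuous there -/
theorem harmS_cont (g : OnePoint ℂ → ℝ) (q : OnePoint ℂ) (h : HarmS g q) : ContinuousAt g q := by
  rcases h with ⟨z, rfl, hz⟩ | ⟨rfl, h0⟩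
  · rw [OnePoint.continuousAt_coe]
    exact hz.1.continuousAt
  · rw [OnePoint.continuousAt_infty']
    have h1 : ContinuousAt (fun w : ℂ => g (inv1 w)) 0 := h0.1.continuousAt
    have h2 : Tendsto (fun w : ℂ => g (inv1 w)) (𝓝 0) (𝓝 (g ∞)) := by
      have h3 := h1.tendsto
      have h4 : inv1 0 = ∞ := if_pos rfl
      simp only [h4] at h3
      exact h3
    rw [coclosedCompact_eq_cocompact, ← Metric.cobounded_eq_cocompact]
    have h5 : Tendsto (fun z : ℂ => g (inv1 z⁻¹)) (Bornology.cobounded ℂ) (𝓝 (g ∞)) :=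
      h2.comp (tendsto_inv₀_cobounded.mono_right (le_refl _))
    refine h5.congr' ?_
    have h6 : ∀ᶠ z : ℂ in Bornology.cobounded ℂ, z ≠ 0 := by
      have h7 : Bornology.IsBounded ({0} : Set ℂ) := Bornology.isBounded_singleton
      have h8 : ({0} : Set ℂ)ᶜ ∈ Bornology.cobounded ℂ := Bornology.isBounded_def.1 h7
      filter_upwards [h8] with z hz
      exact hz
    filter_upwards [h6] with z hz
    have h9 : inv1 z⁻¹ = ((z : ℂ) : OnePoint ℂ) := by
      unfold inv1
      rw [if_neg (inv_ne_zero hz), inv_inv]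
    rw [h9]
    rfl

/-- the superlevel sets of a Green function are closed in the sphere -/
theorem closed_super (B : Set (OnePoint ℂ)) (a : ℂ) (g : OnePoint ℂ → ℝ) (hB : IsOpen B)
    (ha : (a : OnePoint ℂ) ∈ B) (hg : IsGreen B a g) (δ : ℝ) (hδ : 0 < δ) :
    IsClosed {q : OnePoint ℂ | q ∈ B ∧ (q = (a : OnePoint ℂ) ∨ δ ≤ g q)} := by
  rw [← isOpen_compl_iff, isOpen_iff_mem_nhds]
  intro q hq
  have hq' : ¬ (q ∈ B ∧ (q = (a : OnePoint ℂ) ∨ δ ≤ g q)) := hq
  by_cases hqB : q ∈ B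
  · have hqa : q ≠ (a : OnePoint ℂ) := fun h => hq' ⟨hqB, Or.inl h⟩
    have hgq : g q < δ := not_le.1 (fun h => hq' ⟨hqB, Or.inr h⟩)
    have hc : ContinuousAt g q := harmS_cont g q (hg.harm q hqB hqa)
    have h1 : ∀ᶠ x in 𝓝 q, g x < δ := hc.eventually_lt continuousAt_const hgq
    have h2 : ∀ᶠ x in 𝓝 q, x ≠ (a : OnePoint ℂ) := isOpen_ne.mem_nhds hqa
    filter_upwards [h1, h2] with x hx1 hx2
    rintro ⟨_, h | h⟩
    · exact hx2 h
    · exact absurd hx1 (not_lt.2 h)
  · have hqa : q ≠ (a : OnePoint ℂ) := fun h => hqB (h ▸ ha)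
    by_cases hcl : q ∈ closure B
    · have hfr : q ∈ frontier B := by
        rw [hB.frontier_eq]
        exact ⟨hcl, hqB⟩
      have h1 : ∀ᶠ x in 𝓝[B] q, g x < δ := (hg.bdry q hfr).eventually_lt_const hδ
      have h2 : ∀ᶠ x in 𝓝 q, x ≠ (a : OnePoint ℂ) := isOpen_ne.mem_nhds hqa
      rw [eventually_nhdsWithin_iff] at h1
      filter_upwards [h1, h2] with x hx1 hx2
      rintro ⟨hxB, h | h⟩
      · exact hx2 h
      · exact absurd (hx1 hxB) (not_lt.2 h)
    · have h1 : (closure B)ᶜ ∈ 𝓝 q := isClosed_closure.isOpen_compl.mem_nhds hcl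
      filter_upwards [h1] with x hx
      rintro ⟨hxB, _⟩
      exact hx (subset_closure hxB)

theorem mk (hMC : T_MC) : T_MK := by
  intro B a p g hB ha hp hg δ hδ
  have hap : a ≠ p := fun h => hp (h ▸ ha)
  have hQ := closed_super B a g hB ha hg δ hδ
  have hmob : ∀ w : ℂ, mob p w = (a : OnePoint ℂ) ↔ w = (a - p)⁻¹ := by
    intro w
    unfold mob
    constructor
    · intro h
      split_ifs at h with h0
      · exact absurd h (OnePoint.infty_ne_coe a)
      · have h1 : p + w⁻¹ = a := OnePoint.coe_injective h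
        have h2 : a - p = w⁻¹ := by rw [← h1]; ring
        rw [h2, inv_inv]
    · intro h
      have h0 : w ≠ 0 := by
        rw [h]
        exact inv_ne_zero (sub_ne_zero.2 hap)
      rw [if_neg h0, h, inv_inv]
      congr 1
      ring
  have hset : {w : ℂ | mob p w ∈ B ∧ (w = (a - p)⁻¹ ∨ δ ≤ g (mob p w))} =
      (mob p) ⁻¹' {q : OnePoint ℂ | q ∈ B ∧ (q = (a : OnePoint ℂ) ∨ δ ≤ g q)} := by
    ext w
    simp only [Set.mem_preimage, Set.mem_ofPred_eq, hmob]
  rw [hset]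
  apply Metric.isCompact_of_isClosed_isBounded
  · exact hQ.preimage (hMC p)
  · have hpQ : (p : OnePoint ℂ) ∈ {q : OnePoint ℂ | q ∈ B ∧ (q = (a : OnePoint ℂ) ∨ δ ≤ g q)}ᶜ :=
      fun h => hp h.1
    have h1 : {q : OnePoint ℂ | q ∈ B ∧ (q = (a : OnePoint ℂ) ∨ δ ≤ g q)}ᶜ ∈
        𝓝 (p : OnePoint ℂ) := hQ.isOpen_compl.mem_nhds hpQ
    have h2 : ∀ᶠ z : ℂ in 𝓝 p, (z : OnePoint ℂ) ∉
        {q : OnePoint ℂ | q ∈ B ∧ (q = (a : OnePoint ℂ) ∨ δ ≤ g q)} :=
      OnePoint.continuous_coe.continuousAt.eventually h1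
    obtain ⟨ε, hε, h3⟩ := Metric.eventually_nhds_iff.1 h2
    rw [isBounded_iff_forall_norm_le]
    refine ⟨ε⁻¹, ?_⟩
    intro w hw
    by_cases h0 : w = 0
    · rw [h0, norm_zero]
      exact (inv_pos.2 hε).le
    · have h4 : mob p w = ((p + w⁻¹ : ℂ) : OnePoint ℂ) := if_neg h0
      have h5 : mob p w ∈ {q : OnePoint ℂ | q ∈ B ∧ (q = (a : OnePoint ℂ) ∨ δ ≤ g q)} := hw
      rw [h4] at h5
      have h6 : ¬ dist (p + w⁻¹) p < ε := fun h => h3 h h5
      have h7 : ε ≤ ‖w‖⁻¹ := by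
        rw [← norm_inv]
        have h8 : dist (p + w⁻¹) p = ‖w⁻¹‖ := by
          rw [dist_eq_norm]
          congr 1
          ring
        rw [← h8]
        exact not_lt.1 h6
      have h9 : 0 < ‖w‖ := norm_pos_iff.2 h0
      rw [le_inv_comm₀ hε h9] at h7
      exact h7

end Pool.Agent.H50.IR
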